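import Pool.Agent.Lib.MP_e4ee3e_an.PB.Main

/-!
MP_e4ee3e_an, question Q1 (all measures on the Julia set, zero entropy included) for rational maps of
any degree and with any number of critical points which have an attracting or parabolic fixed point
with a completely invariant basin, or such that some point and all its preimages lie in its immediate
basin; and for all fixed points with a more general property of this kind.
-/

open MeasureTheory Filter Topology

namespace Pool.Agent.Results.MP_e4ee3e_an.AttractedPreimages

open Pool.Agent.Lib.MP_e4ee3e_an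

/-- `A` is a nonempty connected open set outside the Julia set, it contains all preimages of its
points, and the orbits of its points converge to `a`. -/
def InvariantDomain (f : OnePoint ℂ → OnePoint ℂ) (a : OnePoint ℂ) (A : Set (OnePoint ℂ)) : Prop :=
  IsOpen A ∧ IsConnected A ∧ A ∩ julia f = ∅ ∧ (∀ z ∈ A, Tendsto (fun n => f^[n] z) atTop (𝓝 a)) ∧
    f ⁻¹' A ⊆ A

/-- `A` is an open set outside the Julia set, the orbits of its points converge to `a`, every
component of `A` meets its image under some iterate, and some point of `A` has all its preimages in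
`A`. (All but the last condition hold for the immediate basin of an attracting or parabolic fixed
point.) -/
def AttractedSet (f : OnePoint ℂ → OnePoint ℂ) (a : OnePoint ℂ) (A : Set (OnePoint ℂ)) : Prop :=
  IsOpen A ∧ A ∩ julia f = ∅ ∧ (∀ z ∈ A, Tendsto (fun n => f^[n] z) atTop (𝓝 a)) ∧
    (∀ z ∈ A, ∃ q, 1 ≤ q ∧ ∃ x ∈ connectedComponentIn A z, f^[q] x ∈ connectedComponentIn A z) ∧
    ∃ z₀ ∈ A, ∀ z, f z = z₀ → z ∈ A

/-- Every neighbourhood `U` of `a` contains the image under some iterate of a connected set which
contains `a`, some point and all preimages of this point. -/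
def CollectedPreimages (f : OnePoint ℂ → OnePoint ℂ) (a : OnePoint ℂ) : Prop :=
  ∀ U ∈ 𝓝 a, ∃ (n : ℕ) (K : Set (OnePoint ℂ)), IsPreconnected K ∧ a ∈ K ∧
    (∃ z₀ ∈ K, ∀ z, f z = z₀ → z ∈ K) ∧ ∀ z ∈ K, f^[n] z ∈ U

/-- Let `f = P / Q` be a rational map of the Riemann sphere of degree `d ≥ 2` and let `a` be a fixed
point of `f` which is not in the forward orbit of a critical point. Suppose that there is a domain as
in `InvariantDomain`, or an open set as in `AttractedSet`, or that `CollectedPreimages` holds (each of
these hypotheses is more general than the previous one). Then there is one geometric coding tree of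
`f` with root `a` (all `d` preimages of `a`, unique lifts, curves meeting no critical value of an
iterate) such that every point of the Julia set is the limit of the vertices of some sequence, and
every Borel probability measure on the Julia set is the image under the coding map of a probability
measure on the space of sequences of `d` symbols. -/
theorem result (P Q : Polynomial ℂ) (hPQ : IsCoprime P Q)
    (hd : 2 ≤ max P.natDegree Q.natDegree) (a : OnePoint ℂ) (hfa : ratMap P Q a = a)
    (hcrit : ∀ c, IsCritPt (ratMap P Q) c → ∀ n : ℕ, 1 ≤ n → (ratMap P Q)^[n] c ≠ a)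
    (hS : (∃ A, InvariantDomain (ratMap P Q) a A) ∨ (∃ A, AttractedSet (ratMap P Q) a A) ∨
      CollectedPreimages (ratMap P Q) a)
    [MeasurableSpace (OnePoint ℂ)] [BorelSpace (OnePoint ℂ)] :
    ∃ T : CodingTree (ratMap P Q) (max P.natDegree Q.natDegree),
      T.root = a ∧ T.UniqueLifts ∧ T.AvoidsCriticalValues ∧
      (∀ x ∈ julia (ratMap P Q), ∃ ω, Tendsto (fun n => T.vertex n ω) atTop (𝓝 x)) ∧
      ∀ m : Measure (OnePoint ℂ), IsProbabilityMeasure m → m (julia (ratMap P Q))ᶜ = 0 →
        ∃ μ : Measure (ℕ → Fin (max P.natDegree Q.natDegree)), IsProbabilityMeasure μ ∧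
          μ T.domainᶜ = 0 ∧ μ.map T.codingMap = m := by
  have hR : RatData P Q (max P.natDegree Q.natDegree) := ⟨hPQ, rfl, hd⟩
  have hS' : CollectedPreimages (ratMap P Q) a := by
    rcases hS with ⟨A, hAo, hAc, hJ, hconv, hinv⟩ | ⟨A, h1, h2, h3, h4, h5⟩ | hS
    · refine collects_of_domains hR a hfa hAo hconv hJ ?_ ?_
      · intro z hz
        obtain ⟨y, hy⟩ := hAc.nonempty
        obtain ⟨x, hx⟩ := ratMap_surjective hR y
        have hxA : x ∈ A := hinv (by rw [Set.mem_preimage, hx]; exact hy)
        have hsub : A ⊆ connectedComponentIn A z :=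
          hAc.isPreconnected.subset_connectedComponentIn hz subset_rfl
        refine ⟨1, le_rfl, x, hsub hxA, hsub ?_⟩
        show ratMap P Q x ∈ A
        rw [hx]
        exact hy
      · obtain ⟨y, hy⟩ := hAc.nonempty
        exact ⟨y, hy, fun z hz => hinv (by rw [Set.mem_preimage, hz]; exact hy)⟩
    · exact collects_of_domains hR a hfa h1 h3 h2 h4 h5
    · exact hS
  obtain ⟨T, h1, h2, h3, h4⟩ := pb_main hR a hfa hcrit hS'
  exact ⟨T, h1, h2, h3, fun x hx => point_of_codes T h4 hx, h4⟩

end Pool.Agent.Results.MP_e4ee3e_an.AttractedPreimages
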