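import Pool.Agent.Lib.MP_e4ee3e_an.Q1.FI

/-!
MP_e4ee3e_an, question Q1 (all invariant measures, zero entropy included): measures on the boundary
of the immediate basin of an attracting fixed point of an arbitrary rational map, and all measures
on the Julia set if that basin is completely invariant.
-/

open MeasureTheory Filter Topology

namespace Pool.Agent.Results.MP_e4ee3e_an.ImmediateBasin

open Pool.Agent.Lib.MP_e4ee3e_an

/-- Let `f = P / Q` be a rational map of the Riemann sphere of degree `d ≥ 2` and let `a` be an
attracting fixed point of `f` which is not in the forward orbit of a critical point. Let `A` be its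
immediate basin. There is one geometric coding tree of `f` with root `a` (whose children are all
`d` preimages of `a`), with unique lifts and curves meeting no critical value of an iterate of `f`,
such that every point of the boundary of `A` is the limit of the vertices of some sequence and
every Borel probability measure on the boundary of `A` is the image under the coding map of a
probability measure on the space of sequences. If `A` is completely invariant, the same holds for
all points of the Julia set and all Borel probability measures on the Julia set. -/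
theorem result (P Q : Polynomial ℂ) (hcop : IsCoprime P Q) (d : ℕ)
    (hdeg : d = max P.natDegree Q.natDegree) (hd : 2 ≤ d) (f : OnePoint ℂ → OnePoint ℂ)
    (hf : f = ratMap P Q) (a : OnePoint ℂ) (ha : IsAttracting f a)
    (hcrit : ∀ c, IsCritPt f c → ∀ n, 1 ≤ n → f^[n] c ≠ a)
    (A : Set (OnePoint ℂ)) (hA : A = immediateBasin f a)
    [MeasurableSpace (OnePoint ℂ)] [BorelSpace (OnePoint ℂ)] :
    ∃ T : CodingTree f d, T.root = a ∧ T.UniqueLifts ∧ T.AvoidsCriticalValues ∧
      (∀ x : OnePoint ℂ, x ∈ frontier A ∨ (f ⁻¹' A ⊆ A ∧ x ∈ julia f) →
        ∃ ω, Tendsto (fun n => T.vertex n ω) atTop (𝓝 x)) ∧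
      ∀ m : Measure (OnePoint ℂ), IsProbabilityMeasure m →
        m (frontier A)ᶜ = 0 ∨ (f ⁻¹' A ⊆ A ∧ m (julia f)ᶜ = 0) →
        ∃ μ : Measure (ℕ → Fin d), IsProbabilityMeasure μ ∧ μ T.domainᶜ = 0 ∧
          μ.map T.codingMap = m := by
  subst hf
  subst hA
  have h : RatData P Q d := ⟨hcop, hdeg.symm, hd⟩
  obtain ⟨T, h1, h2, h3, h4⟩ := Q1.main_basin h ha hcrit
  refine ⟨T, h1, h2, h3, ?_, ?_⟩
  · rintro x (hx | ⟨hinv, hx⟩)
    · exact Q1.points_of_codes T isClosed_frontier.measurableSet h4 hx
    · exact Q1.points_of_codes T isClosed_frontier.measurableSet h4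
        (Q1.julia_subset_frontier h ha hinv hx)
  · rintro m hm (hx | ⟨hinv, hx⟩)
    · exact h4 m hm hx
    · exact h4 m hm (measure_mono_null
        (Set.compl_subset_compl.2 (Q1.julia_subset_frontier h ha hinv)) hx)

end Pool.Agent.Results.MP_e4ee3e_an.ImmediateBasin
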