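import Pool.Agent.Lib.MP_e4ee3e_an.Main3

/-!
MP_e4ee3e_an, question Q2 for rational maps of the Riemann sphere: the answer is positive, with one
tree for all measures and ergodic shift-invariant measures on the space of sequences.
-/

open MeasureTheory Filter Topology

namespace Pool.Agent.Results.MP_e4ee3e_an.OneTreeForAllMeasures

open Pool.Agent.Lib.MP_e4ee3e_an

/-- Let `f = P / Q` be a rational map of the Riemann sphere of degree `d ≥ 2`. For Lebesgue almost
every point `z` of the plane there is a geometric coding tree of `f` with root `z`, whose curves
meet no critical value of an iterate of `f` (and with unique lifts), such that every ergodic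
`f`-invariant Borel probability measure `m` of positive entropy is the image under the coding map of
a probability measure `μ` on the space of sequences of `d` symbols which is invariant and ergodic
for the shift and for which the vertices converge almost everywhere. -/
theorem result (P Q : Polynomial ℂ) (hPQ : IsCoprime P Q)
    (hd : 2 ≤ max P.natDegree Q.natDegree)
    [MeasurableSpace (OnePoint ℂ)] [BorelSpace (OnePoint ℂ)] :
    ∀ᵐ z : ℂ, ∃ T : CodingTree (ratMap P Q) (max P.natDegree Q.natDegree),
      T.root = (z : OnePoint ℂ) ∧ T.UniqueLifts ∧ T.AvoidsCriticalValues ∧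
      ∀ m : Measure (OnePoint ℂ), IsProbabilityMeasure m → Ergodic (ratMap P Q) m →
        0 < ksEntropy (ratMap P Q) m →
        ∃ μ : Measure (ℕ → Fin (max P.natDegree Q.natDegree)),
          IsProbabilityMeasure μ ∧ Ergodic shift μ ∧ μ T.domainᶜ = 0 ∧ μ.map T.codingMap = m :=
  main_theorem_ae ⟨hPQ, rfl, hd⟩

end Pool.Agent.Results.MP_e4ee3e_an.OneTreeForAllMeasures
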