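import Pool.Agent.Lib.MP_e4ee3e_an.PB.AccMain

/-!
MP_e4ee3e_an, question Q1 (all measures on the Julia set, zero entropy included) for all quadratic
rational maps, all rational maps with two critical points, and all rational maps all whose critical
points with an orbit accumulating at the fixed point are alone in their fibres, which have an
attracting, parabolic or Cremer fixed point: one tree codes every point of the Julia set.
-/

open MeasureTheory Filter Topology

namespace Pool.Agent.Results.MP_e4ee3e_an.TwoCriticalPoints

open Pool.Agent.Lib.MP_e4ee3e_an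

/-- Let `f = P / Q` be a rational map of the Riemann sphere of degree `d ≥ 2`. Let `a` be a finite
fixed point which is not in the forward orbit of a critical point, with `|f'(a)| ≤ 1` and, if
`|f'(a)| = 1`, in the Julia set (so `a` is attracting, parabolic or a Cremer point). Suppose that
`d = 2` or, more generally, that every critical point of `f` whose forward orbit accumulates at `a` is
the only point of its fibre (for example, every critical point of `f` is the only point of its fibre,
that is, `f` has exactly two critical points). Then there is one geometric coding tree of `f` with root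
`a` (all `d` preimages of `a`, unique lifts, curves meeting no critical value of an iterate) such
that every point of the Julia set is the limit of the vertices of some sequence, and every Borel
probability measure on the Julia set is the image under the coding map of a probability measure on
the space of sequences of `d` symbols. -/
theorem result (P Q : Polynomial ℂ) (hPQ : IsCoprime P Q)
    (hd : 2 ≤ max P.natDegree Q.natDegree)
    (a : ℂ)
    (hbi : max P.natDegree Q.natDegree = 2 ∨ ∀ c, IsCritPt (ratMap P Q) c →
      (∀ U ∈ 𝓝 (a : OnePoint ℂ), ∃ n, 1 ≤ n ∧ (ratMap P Q)^[n] c ∈ U) →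
        ∀ z, ratMap P Q z = ratMap P Q c → z = c)
    (hfa : ratMap P Q (a : OnePoint ℂ) = (a : OnePoint ℂ))
    (hcrit : ∀ c, IsCritPt (ratMap P Q) c → ∀ n : ℕ, 1 ≤ n →
      (ratMap P Q)^[n] c ≠ (a : OnePoint ℂ))
    (hle : ‖deriv (fun z => P.eval z / Q.eval z) a‖ ≤ 1)
    (hJ : ‖deriv (fun z => P.eval z / Q.eval z) a‖ = 1 → (a : OnePoint ℂ) ∈ julia (ratMap P Q))
    [MeasurableSpace (OnePoint ℂ)] [BorelSpace (OnePoint ℂ)] :
    ∃ T : CodingTree (ratMap P Q) (max P.natDegree Q.natDegree),
      T.root = (a : OnePoint ℂ) ∧ T.UniqueLifts ∧ T.AvoidsCriticalValues ∧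
      (∀ x ∈ julia (ratMap P Q), ∃ ω, Tendsto (fun n => T.vertex n ω) atTop (𝓝 x)) ∧
      ∀ m : Measure (OnePoint ℂ), IsProbabilityMeasure m → m (julia (ratMap P Q))ᶜ = 0 →
        ∃ μ : Measure (ℕ → Fin (max P.natDegree Q.natDegree)), IsProbabilityMeasure μ ∧
          μ T.domainᶜ = 0 ∧ μ.map T.codingMap = m := by
  have hR : RatData P Q (max P.natDegree Q.natDegree) := ⟨hPQ, rfl, hd⟩
  have hbi' : ∀ c, IsCritPt (ratMap P Q) c →
      (∀ U ∈ 𝓝 (a : OnePoint ℂ), ∃ n, 1 ≤ n ∧ (ratMap P Q)^[n] c ∈ U) →
        ∀ z, ratMap P Q z = ratMap P Q c → z = c := by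
    rcases hbi with h2 | h2
    · have hR2 : RatData P Q 2 := ⟨hPQ, h2, le_rfl⟩
      intro c hc _ z hz
      exact quadratic_totRam hR2 hc hz
    · exact h2
  obtain ⟨T, h1, h2, h3, h4⟩ := accumulating_main hR a hbi' hfa hcrit hle hJ
  exact ⟨T, h1, h2, h3, fun x hx => point_of_codes T h4 hx, h4⟩

end Pool.Agent.Results.MP_e4ee3e_an.TwoCriticalPoints
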